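import Pool.Agent.Q55.SM.Stm2

/-!
The cotangent space of affine space at a point.
-/

set_option autoImplicit false

open MvPolynomial

namespace Pool.Agent.Q65.SM

open Pool.Agent.Q55.SM Pool.Agent.Helper819.Dyn Pool.Agent.Helper819.Apolar

variable {k : Type} [Field k] {N d : ℕ}

theorem X_sub_mem (f : Ix N d → k) (p : Ix N d) : (X p - C (f p) : MvPolynomial (Ix N d) k) ∈ mId f := by
  rw [mem_mId]
  simp

theorem taylor (f : Ix N d → k) (P : MvPolynomial (Ix N d) k) :
    P - C (eval f P) - ∑ p, C (eval f (pderiv p P)) * (X p - C (f p)) ∈ mId f ^ 2 := by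
  classical
  induction P using MvPolynomial.induction_on with
  | C a => simp
  | add p q hp hq =>
    have h := Ideal.add_mem _ hp hq
    convert h using 1
    simp only [map_add, add_mul, Finset.sum_add_distrib]
    ring
  | mul_X P i hP =>
    have e1 : ∑ p, C (eval f (pderiv p (P * X i))) * (X p - C (f p)) =
        C (f i) * ∑ p, C (eval f (pderiv p P)) * (X p - C (f p)) + C (eval f P) * (X i - C (f i)) := by
      rw [Finset.mul_sum]
      have : C (eval f P) * (X i - C (f i)) =
          ∑ p, C (eval f (P * pderiv p (X i))) * (X p - C (f p) : MvPolynomial (Ix N d) k) := by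
        rw [Finset.sum_eq_single i]
        · rw [pderiv_X_self, mul_one]
        · intro q _ hq
          rw [pderiv_X_of_ne (Ne.symm hq), mul_zero, map_zero, map_zero, zero_mul]
        · intro h; exact absurd (Finset.mem_univ _) h
      rw [this, ← Finset.sum_add_distrib]
      refine Finset.sum_congr rfl fun p _ => ?_
      rw [pderiv_mul, map_add, map_mul, map_mul, map_add, map_mul, map_mul, eval_X]
      ring
    have h1 : X i * (P - C (eval f P) - ∑ p, C (eval f (pderiv p P)) * (X p - C (f p))) ∈ mId f ^ 2 :=
      Ideal.mul_mem_left _ _ hP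
    have h2 : (X i - C (f i)) * ∑ p, C (eval f (pderiv p P)) * (X p - C (f p)) ∈ mId f ^ 2 := by
      rw [sq]
      exact Ideal.mul_mem_mul (X_sub_mem f i) (Ideal.sum_mem _ fun p _ => Ideal.mul_mem_left _ _ (X_sub_mem f p))
    have h := Ideal.add_mem _ h1 h2
    convert h using 1
    rw [e1, map_mul, eval_X, map_mul]
    ring

theorem cot : S_Cot := by
  intro k _ N d f y h0 hv
  classical
  obtain ⟨P, Q, hQ, hh⟩ := y.2
  have h1 := ev_quot f y hh
  rw [h0, zero_mul] at h1
  have h2 : ∀ p, eval f (pderiv p P) = 0 := by
    intro p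
    have h3 := der_quot (Pi.single p 1) hh
    have h4 := ev_quot f (derR f (Pi.single p 1) y) h3
    rw [hv, zero_mul, map_sub, map_mul, map_mul, ← h1, zero_mul, sub_zero] at h4
    have h5 := (mul_eq_zero.1 h4.symm).resolve_right hQ
    rw [eval_pd] at h5
    unfold dd at h5
    rw [Finset.sum_eq_single p] at h5
    · simpa using h5
    · intro q _ hq
      rw [Pi.single_eq_of_ne hq, zero_mul]
    · intro h; exact absurd (Finset.mem_univ _) h
  have h3 : P ∈ mId f ^ 2 := by
    have := taylor f P
    simpa [← h1, h2] using this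
  have h4 : (mId f).map (algebraMap (MvPolynomial (Ix N d) k) (regRing f)) ≤
      IsLocalRing.maximalIdeal (regRing f) := by
    rw [Ideal.map_le_iff_le_comap]
    intro R hR
    rw [Ideal.mem_comap, mem_max_iff, ev_algebraMap]
    exact (mem_mId f R).1 hR
  have h5 : algebraMap (MvPolynomial (Ix N d) k) (regRing f) P ∈ IsLocalRing.maximalIdeal (regRing f) ^ 2 := by
    have h6 := Ideal.mem_map_of_mem (algebraMap (MvPolynomial (Ix N d) k) (regRing f)) h3
    rw [Ideal.map_pow] at h6
    exact Ideal.pow_right_mono h4 2 h6
  have h6 : y * algebraMap _ (regRing f) Q = algebraMap _ (regRing f) P := Subtype.ext hh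
  have hu : IsUnit (algebraMap _ (regRing f) Q) := by
    by_contra hn
    have h7 : algebraMap _ (regRing f) Q ∈ IsLocalRing.maximalIdeal (regRing f) := hn
    rw [mem_max_iff, ev_algebraMap] at h7
    exact hQ h7
  obtain ⟨u, hu⟩ := hu
  have h7 : y = algebraMap _ (regRing f) P * (u⁻¹ : (regRing f)ˣ) := by
    rw [← h6, ← hu, mul_assoc, Units.mul_inv, mul_one]
  rw [h7]
  exact Ideal.mul_mem_right _ _ h5

theorem ker_aux (f : Ix N d → k) (s : Finset (Ix N d)) [DecidableEq (Ix N d)] :
    ((s.card : ℕ) : ℕ∞) ≤ (RingHom.ker (aeval (fun p => if p ∈ s then C (f p) else X p) :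
      MvPolynomial (Ix N d) k →ₐ[k] MvPolynomial (Ix N d) k)).height := by
  induction s using Finset.induction_on with
  | empty => simp
  | insert a s ha ih =>
    set K1 := RingHom.ker (aeval (fun p => if p ∈ s then C (f p) else X p) :
      MvPolynomial (Ix N d) k →ₐ[k] MvPolynomial (Ix N d) k) with hK1
    set K2 := RingHom.ker (aeval (fun p => if p ∈ insert a s then C (f p) else X p) :
      MvPolynomial (Ix N d) k →ₐ[k] MvPolynomial (Ix N d) k) with hK2
    have p1 : K1.IsPrime := RingHom.ker_isPrime _
    have p2 : K2.IsPrime := RingHom.ker_isPrime _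
    have hle : K1 ≤ K2 := by
      intro P hP
      rw [hK1, RingHom.mem_ker] at hP
      rw [hK2, RingHom.mem_ker]
      have h1 : (aeval (fun p => if p = a then C (f p) else X p : Ix N d → MvPolynomial (Ix N d) k))
          (aeval (fun p => if p ∈ s then C (f p) else X p : Ix N d → MvPolynomial (Ix N d) k) P) =
          aeval (fun p => if p ∈ insert a s then C (f p) else X p : Ix N d → MvPolynomial (Ix N d) k) P := by
        rw [← AlgHom.comp_apply]
        congr 1
        apply MvPolynomial.algHom_ext
        intro p
        rw [AlgHom.comp_apply, aeval_X, aeval_X]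
        by_cases hp : p ∈ s
        · rw [if_pos hp, if_pos (Finset.mem_insert_of_mem hp)]
          exact (aeval (fun p => if p = a then C (f p) else X p : Ix N d → MvPolynomial (Ix N d) k)).commutes _
        · rw [if_neg hp, aeval_X]
          by_cases hpa : p = a
          · rw [if_pos hpa, if_pos (by rw [hpa]; exact Finset.mem_insert_self _ _)]
          · rw [if_neg hpa, if_neg (by rw [Finset.mem_insert]; tauto)]
      have h2 : (aeval (fun p => if p ∈ s then C (f p) else X p : Ix N d → MvPolynomial (Ix N d) k)) P = 0 := hP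
      change (aeval (fun p => if p ∈ insert a s then C (f p) else X p : Ix N d → MvPolynomial (Ix N d) k)) P = 0
      rw [← h1, h2, map_zero]
    have hlt : K1 < K2 := by
      refine lt_of_le_of_ne hle fun h => ?_
      have h1 : (X a - C (f a) : MvPolynomial (Ix N d) k) ∈ K2 := by
        change aeval (fun p => if p ∈ insert a s then C (f p) else X p : Ix N d → MvPolynomial (Ix N d) k)
          (X a - C (f a)) = 0
        rw [map_sub, aeval_X, if_pos (Finset.mem_insert_self _ _), aeval_C]
        exact sub_self _
      rw [← h] at h1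
      have h2 : aeval (fun p => if p ∈ s then C (f p) else X p : Ix N d → MvPolynomial (Ix N d) k)
          (X a - C (f a)) = 0 := h1
      rw [map_sub, aeval_X, if_neg ha, aeval_C] at h2
      have h3 := congrArg (eval (fun _ => f a + 1)) h2
      have h4 : eval (fun _ => f a + 1) (algebraMap k (MvPolynomial (Ix N d) k) (f a)) = f a := eval_C _
      rw [map_sub, eval_X, h4, map_zero] at h3
      simp at h3
    have h1 := Ideal.height_add_one_le_of_lt_of_isPrime hlt
    rw [Finset.card_insert_of_notMem ha]
    push_cast
    exact (add_le_add_left ih 1).trans h1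

theorem ht : S_Ht := by
  intro k _ N d f
  classical
  rw [IsLocalization.AtPrime.ringKrullDim_eq_height (mId f) (regRing f)]
  have h := ker_aux f Finset.univ
  have h1 : RingHom.ker (aeval (fun p => if p ∈ (Finset.univ : Finset (Ix N d)) then C (f p) else X p) :
      MvPolynomial (Ix N d) k →ₐ[k] MvPolynomial (Ix N d) k) = mId f := by
    ext P
    have h2 : (aeval (fun p => if p ∈ (Finset.univ : Finset (Ix N d)) then C (f p) else X p) :
      MvPolynomial (Ix N d) k →ₐ[k] MvPolynomial (Ix N d) k) P = C (eval f P) := by
      induction P using MvPolynomial.induction_on with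
      | C a => rw [aeval_C, eval_C]; rfl
      | add p q hp hq => rw [map_add, hp, hq, map_add, map_add]
      | mul_X p i hp => rw [map_mul, hp, aeval_X, if_pos (Finset.mem_univ _), map_mul, eval_X, map_mul]
    rw [mem_mId]
    change (aeval (fun p => if p ∈ (Finset.univ : Finset (Ix N d)) then C (f p) else X p) :
      MvPolynomial (Ix N d) k →ₐ[k] MvPolynomial (Ix N d) k) P = 0 ↔ _
    rw [h2]
    exact C_eq_zero
  rw [h1, Finset.card_univ] at h
  exact_mod_cast h

end Pool.Agent.Q65.SM
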