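import Pool.Agent.Q120.SM.Stm

/-!
# Project SM of helper120: job D1, upper bound for the dimension
-/

set_option autoImplicit false

namespace Pool.Agent.Q65.SM

open Finset MeasureTheory Filter Topology Pool.Agent.Q120.SM
open scoped ENNReal NNReal

theorem scales_large {x : ℕ → ℝ} (hx : Scales x) : Tendsto x atTop atTop := by
  obtain ⟨hx0, hx⟩ := hx
  have h1 := (hx 1 one_pos).tendsto_atTop_zero
  have h2 : Tendsto (fun n => (x n ^ (-(1 : ℝ)))⁻¹) atTop atTop := by
    apply Filter.Tendsto.inv_tendsto_nhdsGT_zero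
    rw [tendsto_nhdsWithin_iff]
    exact ⟨h1, Eventually.of_forall (fun n => Real.rpow_pos_of_pos (hx0 n) _)⟩
  refine h2.congr (fun n => ?_)
  rw [Real.rpow_neg (hx0 n).le, Real.rpow_one, inv_inv]

open Classical in
/-- the positions of `B` in `(x - 1, 2 x]` -/
noncomputable def st (B : Set ℕ) (x : ℝ) : Finset ℕ :=
  (Finset.range (⌊2 * x⌋₊ + 1)).filter fun m => m ∈ B ∧ x - 1 < m ∧ (m : ℝ) ≤ 2 * x

theorem mem_st {B : Set ℕ} {x : ℝ} {m : ℕ} :
    m ∈ st B x ↔ m ∈ B ∧ x - 1 < m ∧ (m : ℝ) ≤ 2 * x := by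
  simp only [st, mem_filter, mem_range]
  constructor
  · exact fun h => h.2
  · intro h
    exact ⟨Nat.lt_succ_of_le (Nat.le_floor h.2.2), h⟩

theorem st_coe (B : Set ℕ) (x : ℝ) :
    {m : ℕ | m ∈ B ∧ x - 1 < m ∧ (m : ℝ) ≤ 2 * x} = (st B x : Set ℕ) := by
  ext m
  rw [mem_coe, mem_st]
  rfl

theorem few_iff (B : Set ℕ) (x t : ℝ) : Few B x t ↔ ((st B x).card : ℝ) < x ^ t := by
  unfold Few
  rw [st_coe, Set.ncard_coe_finset]

theorem floor_mem_st {B : Set ℕ} {x α : ℝ} (hx : 0 < x) (h1 : 1 ≤ α) (h2 : α ≤ 2)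
    (h : ⌊α * x⌋₊ ∈ B) : ⌊α * x⌋₊ ∈ st B x := by
  rw [mem_st]
  have h3 : (⌊α * x⌋₊ : ℝ) ≤ α * x := Nat.floor_le (by positivity)
  have h4 := Nat.lt_floor_add_one (α * x)
  refine ⟨h, ?_, ?_⟩
  · nlinarith
  · nlinarith

theorem dimH_LS_le {x : ℕ → ℝ} {B : ℕ → Set ℕ} (hxs : Scales x) {t s : ℝ}
    (h : ∀ᶠ n in atTop, ((st (B n) (x n)).card : ℝ) < x n ^ t) (hts : t < s) (hs : 0 ≤ s) :
    dimH (LS x B) ≤ ENNReal.ofReal s := by
  have hxt := scales_large hxs
  obtain ⟨hx0, hx⟩ := hxs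
  have hsum : Summable (fun n => x n ^ t * x n ^ (-s)) := by
    refine (hx (s - t) (by linarith)).congr (fun n => ?_)
    rw [← Real.rpow_add (hx0 n)]; congr 1; ring
  obtain ⟨n0, hn0⟩ := eventually_atTop.1 h
  -- the covers
  let ι : ℕ → Type := fun N => (n : ℕ) × {m : ℕ // m ∈ st (B (n + N + n0)) (x (n + N + n0))}
  let U : ∀ N, ι N → Set ℝ := fun N i => Set.Icc ((i.2.1 : ℝ) / x (i.1 + N + n0)) (((i.2.1 : ℝ) + 1) / x (i.1 + N + n0))
  have hdiam : ∀ N (i : ι N), Metric.ediam (U N i) = ENNReal.ofReal (1 / x (i.1 + N + n0)) := by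
    intro N i
    simp only [U]
    rw [Real.ediam_Icc]
    congr 1
    have := hx0 (i.1 + N + n0)
    field_simp
    ring
  have hμ : μH[s] (LS x B) ≤ liminf (fun N => ∑' i, Metric.ediam (U N i) ^ s) atTop := by
    obtain ⟨r, hr⟩ : ∃ r : ℕ → ℝ≥0∞, r = fun N => ⨆ n, ENNReal.ofReal (1 / x (n + N + n0)) := ⟨_, rfl⟩
    apply Measure.hausdorffMeasure_le_liminf_tsum s (LS x B) r _ U
    · refine Eventually.of_forall (fun N i => ?_)
      rw [hdiam, hr]
      exact le_iSup (fun n => ENNReal.ofReal (1 / x (n + N + n0))) i.1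
    · refine Eventually.of_forall (fun N => ?_)
      rintro α ⟨h1, h2, h3⟩
      obtain ⟨n, hn1, hn2⟩ := (h3.and_eventually (eventually_ge_atTop (N + n0))).exists
      have hxn := hx0 n
      have hm := floor_mem_st hxn h1 h2 hn1
      rw [Set.mem_iUnion]
      have hnN : n - (N + n0) + N + n0 = n := by omega
      refine ⟨⟨n - (N + n0), ⟨⌊α * x n⌋₊, by rw [hnN]; exact hm⟩⟩, ?_⟩
      simp only [U, hnN]
      constructor
      · rw [div_le_iff₀ hxn]
        exact Nat.floor_le (by positivity)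
      · rw [le_div_iff₀ hxn]
        exact (Nat.lt_floor_add_one _).le
    · rw [hr, ENNReal.tendsto_atTop_zero]
      intro ε hε
      have h1 : Tendsto (fun n => ENNReal.ofReal (1 / x n)) atTop (𝓝 0) := by
        rw [← ENNReal.ofReal_zero]
        apply ENNReal.tendsto_ofReal
        exact tendsto_const_nhds.div_atTop hxt
      rw [ENNReal.tendsto_atTop_zero] at h1
      obtain ⟨N1, hN1⟩ := h1 ε hε
      refine ⟨N1, fun N hN => ?_⟩
      apply iSup_le
      intro n
      exact hN1 _ (by omega)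
  have hbound : ∀ N, ∑' i, Metric.ediam (U N i) ^ s ≤
      ∑' n, ENNReal.ofReal (x (n + N + n0) ^ t * x (n + N + n0) ^ (-s)) := by
    intro N
    rw [ENNReal.tsum_sigma']
    apply ENNReal.tsum_le_tsum
    intro n
    rw [tsum_fintype]
    have h1 : ∀ m : {m : ℕ // m ∈ st (B (n + N + n0)) (x (n + N + n0))},
        Metric.ediam (U N ⟨n, m⟩) ^ s = ENNReal.ofReal (x (n + N + n0) ^ (-s)) := by
      intro m
      rw [hdiam, ENNReal.ofReal_rpow_of_nonneg (by have := hx0 (n + N + n0); positivity) hs]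
      congr 1
      rw [Real.rpow_neg (hx0 _).le, one_div, Real.inv_rpow (hx0 _).le]
    rw [Finset.sum_congr rfl (fun m _ => h1 m), sum_const, nsmul_eq_mul,
      ENNReal.ofReal_mul (Real.rpow_nonneg (hx0 _).le _)]
    gcongr
    have h2 := hn0 (n + N + n0) (by omega)
    rw [card_univ, Fintype.card_coe]
    rw [← ENNReal.ofReal_natCast]
    exact ENNReal.ofReal_le_ofReal h2.le
  have hlim : Tendsto (fun N => ∑' n, ENNReal.ofReal (x (n + N + n0) ^ t * x (n + N + n0) ^ (-s))) atTop (𝓝 0) := by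
    have h1 := tendsto_sum_nat_add (fun n => x (n + n0) ^ t * x (n + n0) ^ (-s))
    have h2 : ∀ N, ∑' n, ENNReal.ofReal (x (n + N + n0) ^ t * x (n + N + n0) ^ (-s)) =
        ENNReal.ofReal (∑' n, x (n + N + n0) ^ t * x (n + N + n0) ^ (-s)) := by
      intro N
      rw [ENNReal.ofReal_tsum_of_nonneg]
      · intro n
        have := hx0 (n + N + n0)
        positivity
      · have h3 := (summable_nat_add_iff (N + n0)).2 hsum
        simpa only [add_assoc] using h3
    simp_rw [h2]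
    rw [← ENNReal.ofReal_zero]
    exact ENNReal.tendsto_ofReal h1
  have hzero : μH[s] (LS x B) = 0 := by
    refine le_antisymm ?_ bot_le
    refine hμ.trans ?_
    have h1 : liminf (fun N => ∑' i, Metric.ediam (U N i) ^ s) atTop ≤
        liminf (fun N => ∑' n, ENNReal.ofReal (x (n + N + n0) ^ t * x (n + N + n0) ^ (-s))) atTop :=
      liminf_le_liminf (Eventually.of_forall hbound)
    rw [hlim.liminf_eq] at h1
    exact h1
  have h2 := dimH_le_of_hausdorffMeasure_ne_top (s := LS x B) (d := s.toNNReal) (by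
    rw [Real.coe_toNNReal s hs, hzero]; exact ENNReal.zero_ne_top)
  exact h2

theorem t_D1 : J_D1 := by
  intro x B hxs
  constructor
  · intro s hs hF
    have h1 : ∀ ε : ℝ, 0 < ε → dimH (LS x B) ≤ ENNReal.ofReal (s + ε) := by
      intro ε hε
      refine dimH_LS_le hxs (t := s + ε / 2) ?_ (by linarith) (by linarith)
      filter_upwards [hF (ε / 2) (by positivity)] with n hn
      exact (few_iff _ _ _).1 hn
    have h2 : Tendsto (fun ε : ℝ => ENNReal.ofReal (s + ε)) (𝓝[>] 0) (𝓝 (ENNReal.ofReal (s + 0))) := by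
      refine ENNReal.tendsto_ofReal ?_
      exact (tendsto_const_nhds.add tendsto_id).mono_left nhdsWithin_le_nhds
    rw [add_zero] at h2
    refine ge_of_tendsto h2 ?_
    filter_upwards [self_mem_nhdsWithin] with ε hε
    exact h1 ε hε
  · intro s hs hF
    have hxt := scales_large hxs
    have hx0 := hxs.1
    have hev : ∀ᶠ n in atTop, st (B n) (x n) = ∅ := by
      filter_upwards [hF, hxt.eventually_ge_atTop 1] with n hn hxn
      rw [few_iff] at hn
      have h1 : x n ^ s ≤ 1 := Real.rpow_le_one_of_one_le_of_nonpos hxn hs.le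
      have h2 : ((st (B n) (x n)).card : ℝ) < 1 := lt_of_lt_of_le hn h1
      have h3 : (st (B n) (x n)).card < 1 := by exact_mod_cast h2
      exact card_eq_zero.1 (by omega)
    constructor
    · filter_upwards [hev] with n hn
      intro m hm h1 h2
      have h3 : m ∈ st (B n) (x n) := mem_st.2 ⟨hm, h1, h2⟩
      rw [hn] at h3
      exact notMem_empty _ h3
    · rw [Set.eq_empty_iff_forall_notMem]
      rintro α ⟨h1, h2, h3⟩
      obtain ⟨n, hn1, hn2⟩ := (h3.and_eventually hev).exists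
      have h4 := floor_mem_st (hx0 n) h1 h2 hn1
      rw [hn2] at h4
      exact notMem_empty _ h4

end Pool.Agent.Q65.SM

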