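import Mathlib

/-! # Determinants of derivatives in a local ring -/

set_option autoImplicit false

namespace Pool.Agent.Q65.SM

theorem der_pow {k O : Type} [Field k] [CommRing O] [Algebra k O] (D : Derivation k O O) (I : Ideal O)
    (s : ℕ) : ∀ x ∈ I ^ (s + 1), D x ∈ I ^ s := by
  induction s with
  | zero => intro x _; simp
  | succ s ih =>
    intro x hx
    rw [pow_succ] at hx
    refine Submodule.mul_induction_on hx ?_ ?_
    · intro a ha b hb
      rw [Derivation.leibniz]
      refine Ideal.add_mem _ ?_ ?_
      · exact Ideal.mul_mem_right _ _ ha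
      · rw [smul_eq_mul, mul_comm, pow_succ]
        exact Ideal.mul_mem_mul (ih a ha) hb
    · intro a b ha hb
      rw [map_add]
      exact Ideal.add_mem _ ha hb

theorem det' {k R O : Type} [Field k] [CommRing R] [IsLocalRing R] [CommRing O] [IsLocalRing O]
    [IsNoetherianRing O] [Algebra k R] [Algebra k O] (ι : R →ₐ[k] O)
    (hι : ∀ x ∈ IsLocalRing.maximalIdeal R, ι x ∈ IsLocalRing.maximalIdeal O)
    (hres : ∀ x : R, ∃ a : k, x - algebraMap k R a ∈ IsLocalRing.maximalIdeal R)
    {n : ℕ} (D : Fin n → Derivation k O O) (h : Fin n → R)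
    (hh : IsLocalRing.maximalIdeal R = Ideal.span (Set.range h)) (g : Fin n → R) :
    (Matrix.of fun i j => D j (ι (g i))).det ∈
      Ideal.span {(Matrix.of fun i j => D j (ι (h i))).det} := by
  classical
  set m := IsLocalRing.maximalIdeal R with hm
  set nn := IsLocalRing.maximalIdeal O with hn
  -- the vector of derivatives
  let d : R → (Fin n → O) := fun x j => D j (ι x)
  have d_add : ∀ x y, d (x + y) = d x + d y := by
    intro x y; funext j; simp [d]
  have d_mul : ∀ x y, d (x * y) = ι x • d y + ι y • d x := by
    intro x y; funext j; simp [d]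
  have d_alg : ∀ a : k, d (algebraMap k R a) = 0 := by
    intro a; funext j; simp [d]
  set N : Submodule O (Fin n → O) := Submodule.span O (Set.range fun i => d (h i)) with hN
  have ιpow : ∀ s : ℕ, ∀ x ∈ m ^ s, ι x ∈ nn ^ s := by
    intro s x hx
    have h1 : m ≤ nn.comap ι.toRingHom := fun y hy => hι y hy
    have h2 : m ^ s ≤ (nn ^ s).comap ι.toRingHom := (Ideal.pow_right_mono h1 s).trans (Ideal.le_comap_pow _ _)
    exact h2 hx
  have key : ∀ (s : ℕ) (x : R), d x ∈ N ⊔ nn ^ s • (⊤ : Submodule O (Fin n → O)) := by
    intro s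
    set Ns := N ⊔ nn ^ s • (⊤ : Submodule O (Fin n → O)) with hNs
    let T : Subalgebra k R :=
      { carrier := {x | d x ∈ Ns}
        mul_mem' := by
          intro a b ha hb
          simp only [Set.mem_ofPred_eq] at ha hb ⊢
          rw [d_mul]
          exact Ns.add_mem (Ns.smul_mem _ hb) (Ns.smul_mem _ ha)
        add_mem' := by
          intro a b ha hb
          simp only [Set.mem_ofPred_eq] at ha hb ⊢
          rw [d_add]
          exact Ns.add_mem ha hb
        algebraMap_mem' := by
          intro a
          simp only [Set.mem_ofPred_eq]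
          rw [d_alg]
          exact Ns.zero_mem }
    have hTh : ∀ i, h i ∈ T := by
      intro i
      show d (h i) ∈ Ns
      exact Submodule.mem_sup_left (Submodule.subset_span ⟨i, rfl⟩)
    have hTm : ∀ x ∈ m ^ (s + 1), x ∈ T := by
      intro x hx
      show d x ∈ Ns
      refine Submodule.mem_sup_right ?_
      have hx' : ∀ j, d x j ∈ nn ^ s := fun j => der_pow (D j) nn s _ (ιpow _ x hx)
      have : d x = ∑ j, d x j • (Pi.single j 1 : Fin n → O) := by
        funext i
        simp [Finset.sum_apply, Pi.single_apply]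
      rw [this]
      exact Submodule.sum_mem _ fun j _ => Submodule.smul_mem_smul (hx' j) trivial
    have hstep : ∀ r : ℕ, ∀ x ∈ m ^ r, ∃ t ∈ T, x - t ∈ m ^ (r + 1) := by
      intro r
      induction r with
      | zero =>
        intro x _
        obtain ⟨a, ha⟩ := hres x
        exact ⟨_, T.algebraMap_mem a, by simpa using ha⟩
      | succ r ih =>
        intro x hx
        have hx2 : x ∈ m ^ r • Submodule.span R (Set.range h) := by
          have : m ^ (r + 1) = m ^ r • Submodule.span R (Set.range h) := by
            rw [pow_succ, smul_eq_mul]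
            congr 1
          rw [← this]; exact hx
        rw [Submodule.mem_ideal_smul_span_iff_exists_sum] at hx2
        obtain ⟨a, ha, rfl⟩ := hx2
        choose t ht ht2 using fun i => ih (a i) (ha i)
        refine ⟨a.sum fun i c => t i * h i, ?_, ?_⟩
        · exact T.sum_mem fun i _ => T.mul_mem (ht i) (hTh i)
        · rw [Finsupp.sum, Finsupp.sum, ← Finset.sum_sub_distrib]
          refine Ideal.sum_mem _ fun i _ => ?_
          rw [smul_eq_mul, ← sub_mul, pow_succ]
          refine Ideal.mul_mem_mul (ht2 i) ?_
          rw [hh]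
          exact Ideal.subset_span ⟨i, rfl⟩
    have hall : ∀ r : ℕ, ∀ x : R, ∃ t ∈ T, x - t ∈ m ^ r := by
      intro r
      induction r with
      | zero => intro x; exact ⟨0, T.zero_mem, by simp⟩
      | succ r ih =>
        intro x
        obtain ⟨t, ht, h1⟩ := ih x
        obtain ⟨t', ht', h2⟩ := hstep r _ h1
        exact ⟨t + t', T.add_mem ht ht', by rwa [← sub_sub]⟩
    intro x
    obtain ⟨t, ht, h1⟩ := hall (s + 1) x
    have h2 : x ∈ T := by
      have := T.add_mem (hTm _ h1) ht
      rwa [sub_add_cancel] at this
    exact h2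
  have hN2 : ∀ x : R, d x ∈ N := by
    intro x
    have h1 : N.mkQ (d x) ∈ (⨅ i : ℕ, nn ^ i • ⊤ : Submodule O ((Fin n → O) ⧸ N)) := by
      rw [Submodule.mem_iInf]
      intro s
      have h2 := Submodule.mem_map_of_mem (f := N.mkQ) (key s x)
      rw [Submodule.map_sup, Submodule.map_smul'', Submodule.map_top, Submodule.range_mkQ] at h2
      have h3 : Submodule.map N.mkQ N = ⊥ := by
        rw [eq_bot_iff]
        rintro _ ⟨y, hy, rfl⟩
        simpa using hy
      rw [h3, bot_sup_eq] at h2
      exact h2
    rw [Ideal.iInf_pow_smul_eq_bot_of_isLocalRing nn (IsLocalRing.maximalIdeal.isMaximal O).ne_top] at h1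
    rw [Submodule.mem_bot] at h1
    simpa using h1
  -- matrices
  have hC : ∀ i, ∃ c : Fin n → O, ∑ l, c l • d (h l) = d (g i) := by
    intro i
    exact (Submodule.mem_span_range_iff_exists_fun O).1 (hN2 (g i))
  choose c hc using hC
  have hmat : (Matrix.of fun i j => D j (ι (g i))) =
      Matrix.of c * (Matrix.of fun i j => D j (ι (h i))) := by
    ext i j
    rw [Matrix.mul_apply]
    have := congrFun (hc i) j
    simp only [Finset.sum_apply, Pi.smul_apply, smul_eq_mul] at this
    simp only [Matrix.of_apply]
    exact this.symm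
  rw [hmat, Matrix.det_mul]
  exact Ideal.mul_mem_left _ _ (Ideal.subset_span rfl)

end Pool.Agent.Q65.SM
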