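import Pool.Agent.Q55.SM.Stm2

/-!
Elements of the local ring of the moduli space are quotients of semi-invariants, and the local
ring is a pure subring of the ring of regular functions.
-/

set_option autoImplicit false

open MvPolynomial

namespace Pool.Agent.Q65.SM

open Pool.Agent.Q55.SM Pool.Agent.Helper819.Dyn Pool.Agent.Helper819.Apolar

variable {k : Type} [Field k] {N d : ℕ}

theorem compT_semi [Infinite k] {w : ℕ} {R : MvPolynomial (Ix N d) k} (hR : IsSemi w R)
    (A : Matrix (Fin (N + 1)) (Fin (N + 1)) k) : compT A R = C (A.det ^ w) * R := by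
  apply MvPolynomial.funext
  intro c
  rw [eval_compT, hR, map_mul, eval_C]

theorem eqq (hs : S_Sep) : S_Eq := by
  intro k _ _ _ N d hd f hf h hh
  obtain ⟨P, Q, hQ, hPQ, hh⟩ := hh
  have hQ0 : Q ≠ 0 := ne_of_eval hQ
  have hinv : ∀ A : Matrix (Fin (N + 1)) (Fin (N + 1)) k, A.det ≠ 0 →
      compT A P * Q = P * compT A Q := by
    intro A hA
    apply MvPolynomial.funext
    intro c
    rw [map_mul, map_mul, eval_compT, eval_compT]
    exact hPQ.gl A hA c
  have hcomp0 : ∀ A : Matrix (Fin (N + 1)) (Fin (N + 1)) k, A.det ≠ 0 → compT A Q ≠ 0 := by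
    intro A hA h0
    have hu : IsUnit A.det := isUnit_iff_ne_zero.mpr hA
    have h1 : eval (actT A⁻¹ f) (compT A Q) = eval f Q := by
      rw [eval_compT, actT_actT, Matrix.nonsing_inv_mul _ hu, actT_one]
    rw [h0, map_zero] at h1
    exact hQ h1.symm
  let I : Ideal (MvPolynomial (Ix N d) k) :=
    { carrier := {B | ∃ G, B * P = G * Q}
      add_mem' := by
        rintro a b ⟨G, hG⟩ ⟨G', hG'⟩
        exact ⟨G + G', by rw [add_mul, hG, hG', add_mul]⟩
      zero_mem' := ⟨0, by rw [zero_mul, zero_mul]⟩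
      smul_mem' := by
        rintro c x ⟨G, hG⟩
        exact ⟨c * G, by rw [smul_eq_mul, mul_assoc, hG, mul_assoc]⟩ }
  have hstab : ∀ A : Matrix (Fin (N + 1)) (Fin (N + 1)) k, A.det ≠ 0 → ∀ B ∈ I, compT A B ∈ I := by
    rintro A hA B ⟨G, hG⟩
    refine ⟨compT A G, ?_⟩
    apply mul_right_cancel₀ (hcomp0 A hA)
    have h1 := congrArg (compT A) hG
    rw [map_mul, map_mul] at h1
    calc compT A B * P * compT A Q = compT A B * (P * compT A Q) := by ring
      _ = compT A B * compT A P * Q := by rw [← hinv A hA]; ring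
      _ = compT A G * Q * compT A Q := by rw [h1]; ring
  obtain ⟨w, R, hR, hfR, G, hG⟩ := hs hd f hf I hstab ⟨Q, ⟨P, mul_comm _ _⟩, hQ⟩
  refine ⟨w, G, R, ?_, hR, hfR, ?_⟩
  · have hcG : ∀ A : Matrix (Fin (N + 1)) (Fin (N + 1)) k, A.det ≠ 0 →
        compT A G = C (A.det ^ w) * G := by
      intro A hA
      have h1 := congrArg (compT A) hG
      rw [map_mul, map_mul, compT_semi hR] at h1
      have h2 : compT A G * (compT A Q * Q) = C (A.det ^ w) * G * (compT A Q * Q) := by
        calc compT A G * (compT A Q * Q) = (compT A G * compT A Q) * Q := by ring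
          _ = C (A.det ^ w) * R * (compT A P * Q) := by rw [← h1]; ring
          _ = C (A.det ^ w) * (R * P) * compT A Q := by rw [hinv A hA]; ring
          _ = C (A.det ^ w) * G * (compT A Q * Q) := by rw [hG]; ring
      exact mul_right_cancel₀ (mul_ne_zero (hcomp0 A hA) hQ0) h2
    intro A c
    have key : aeval (orb c) G = dt (N + 1) k ^ w * C (eval c G) := by
      apply poly_ext
      intro A hA
      rw [eval_aeval_orb, ← eval_compT, hcG A hA, map_mul, eval_C, map_mul, map_pow, eval_dt,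
        eval_C]
    rw [← eval_aeval_orb, key, map_mul, map_pow, eval_dt, eval_C]
  · have h3 : h * inc k N d Q = inc k N d P := hh
    have h1 : h * inc k N d R * inc k N d Q = inc k N d G * inc k N d Q := by
      have h2 := congrArg (inc k N d) hG
      rw [map_mul, map_mul] at h2
      rw [← h2, ← h3]
      ring
    exact mul_right_cancel₀ (inc_ne hQ0) h1

section reynolds

variable [CharZero k]

theorem aeval_orb_semi {w : ℕ} {H : MvPolynomial (Ix N d) k} (hH : IsSemi w H) (c : Ix N d → k) :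
    aeval (orb c) H = dt (N + 1) k ^ w * C (eval c H) := by
  have hinf : Infinite k := inferInstance
  apply poly_ext
  intro A _
  rw [eval_aeval_orb, hH, map_mul, map_pow, eval_dt, eval_C]

theorem rho_pow_mul (v u : ℕ) (h : v ≤ u) (p : KA k N) :
    rho u (dt (N + 1) k ^ v * p) = rho (u - v) p := by
  induction v generalizing u with
  | zero => rw [pow_zero, one_mul, Nat.sub_zero]
  | succ v ih =>
    obtain ⟨u, rfl⟩ : ∃ u', u = u' + 1 := ⟨u - 1, by omega⟩
    rw [pow_succ', mul_assoc, rho_det_mul, ih u (by omega)]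
    congr 1
    omega

theorem rho_pow_mul_zero (v u : ℕ) (h : u < v) (p : KA k N) :
    rho u (dt (N + 1) k ^ v * p) = 0 := by
  have h1 : dt (N + 1) k ^ v * p = dt (N + 1) k ^ u * (dt (N + 1) k * (dt (N + 1) k ^ (v - u - 1) * p)) := by
    rw [← mul_assoc, ← mul_assoc, ← pow_succ, ← pow_add]
    congr 2
    omega
  rw [h1, rho_pow_mul u u le_rfl, Nat.sub_self, rho_zero_det_mul]

/-- the coefficient after averaging -/
noncomputable def bco (u v : ℕ) (a : MvPolynomial (Ix N d) k) : MvPolynomial (Ix N d) k :=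
  if v ≤ u then sharp (u - v) a else 0

theorem sharp_mul {u v : ℕ} (a : MvPolynomial (Ix N d) k) {H : MvPolynomial (Ix N d) k}
    (hH : IsSemi v H) : sharp u (a * H) = bco u v a * H := by
  have hinf : Infinite k := inferInstance
  apply MvPolynomial.funext
  intro c
  rw [eval_sharp, map_mul, aeval_orb_semi hH, map_mul]
  have e : aeval (orb c) a * (dt (N + 1) k ^ v * C (eval c H)) =
      C (eval c H) * (dt (N + 1) k ^ v * aeval (orb c) a) := by ring
  rw [e, rho_smul]
  unfold bco
  split_ifs with h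
  · rw [rho_pow_mul v u h, eval_sharp, mul_comm]
  · rw [rho_pow_mul_zero v u (by omega), map_zero, mul_zero, zero_mul]

theorem sharp_sum {ι : Type} (u : ℕ) (s : Finset ι) (a : ι → MvPolynomial (Ix N d) k) :
    sharp u (∑ i ∈ s, a i) = ∑ i ∈ s, sharp u (a i) := by
  have hinf : Infinite k := inferInstance
  apply MvPolynomial.funext
  intro c
  rw [eval_sharp, map_sum, rho_sum, map_sum]
  exact Finset.sum_congr rfl fun i _ => (eval_sharp _ _ _).symm

theorem sharp_zero_one : sharp 0 (1 : MvPolynomial (Ix N d) k) = 1 := by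
  have hinf : Infinite k := inferInstance
  apply MvPolynomial.funext
  intro c
  rw [eval_sharp, map_one, map_one]
  have := rho_dt (n := N + 1) (k := k) 0
  rwa [pow_zero] at this

theorem sharp_semi {u : ℕ} {H : MvPolynomial (Ix N d) k} (hH : IsSemi u H) : sharp u H = H := by
  have h1 := sharp_mul (u := u) (1 : MvPolynomial (Ix N d) k) hH
  rw [one_mul] at h1
  rw [h1]
  unfold bco
  rw [if_pos le_rfl, Nat.sub_self, sharp_zero_one, one_mul]

end reynolds

theorem mem_map_exists {R S : Type} [CommRing R] [CommRing S] (φ : R →+* S) (I : Ideal R) (y : S)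
    (hy : y ∈ I.map φ) : ∃ (ι : Type) (_ : Fintype ι) (o : ι → S) (g : ι → R),
      (∀ j, g j ∈ I) ∧ y = ∑ j, o j * φ (g j) := by
  refine Submodule.span_induction (p := fun y _ => ∃ (ι : Type) (_ : Fintype ι) (o : ι → S)
    (g : ι → R), (∀ j, g j ∈ I) ∧ y = ∑ j, o j * φ (g j)) ?_ ?_ ?_ ?_ hy
  · rintro _ ⟨x, hx, rfl⟩
    exact ⟨Unit, inferInstance, fun _ => 1, fun _ => x, fun _ => hx, by simp⟩
  · exact ⟨Empty, inferInstance, Empty.elim, Empty.elim, fun j => j.elim, by simp⟩
  · rintro _ _ _ _ ⟨ι, _, o, g, hg, rfl⟩ ⟨ι', _, o', g', hg', rfl⟩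
    refine ⟨ι ⊕ ι', inferInstance, Sum.elim o o', Sum.elim g g', ?_, ?_⟩
    · rintro (j | j)
      · exact hg j
      · exact hg' j
    · rw [Fintype.sum_sum_type]
      rfl
  · rintro a _ _ ⟨ι, _, o, g, hg, rfl⟩
    refine ⟨ι, inferInstance, fun j => a * o j, g, hg, ?_⟩
    rw [smul_eq_mul, Finset.mul_sum]
    exact Finset.sum_congr rfl fun j _ => by ring

theorem pure (h1 : S_Sep) (h2 : S_Eq) : S_Pure := by
  intro k _ _ _ N d hd f hf I x hx
  classical
  have hinf : Infinite k := inferInstance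
  obtain ⟨ι, _, o, g, hg, hsum⟩ := mem_map_exists _ I _ hx
  obtain ⟨w, G, q, hG, hq, hfq, hx'⟩ := h2 hd f hf x.1 x.2
  have hgj : ∀ j, ∃ (w : ℕ) (P Q : MvPolynomial (Ix N d) k), IsSemi w P ∧ IsSemi w Q ∧
      eval f Q ≠ 0 ∧ (g j).1 * inc k N d Q = inc k N d P := fun j => h2 hd f hf (g j).1 (g j).2
  choose wj Gj qj hGj hqj hfqj hgj' using hgj
  have hoj : ∀ j, ∃ P Q : MvPolynomial (Ix N d) k, eval f Q ≠ 0 ∧
      (o j).1 * inc k N d Q = inc k N d P := fun j => (o j).2
  choose U W hW hoj' using hoj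
  -- the identity in the field of rational functions
  have hxs : x.1 = ∑ j, (o j).1 * (g j).1 := by
    have h3 := congrArg Subtype.val hsum
    have h4 : ((∑ j, o j * iota f (g j) : regRing f) : RF k N d) = ∑ j, (o j).1 * (g j).1 := by
      rw [AddSubmonoidClass.coe_finsetSum]
      rfl
    exact h3.trans h4
  let I' : Ideal (MvPolynomial (Ix N d) k) :=
    { carrier := {B | B * G ∈ Ideal.span (Set.range Gj)}
      add_mem' := by
        intro a b ha hb
        show (a + b) * G ∈ Ideal.span (Set.range Gj)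
        rw [add_mul]
        exact Ideal.add_mem _ ha hb
      zero_mem' := by
        show (0 : MvPolynomial (Ix N d) k) * G ∈ Ideal.span (Set.range Gj)
        rw [zero_mul]
        exact Ideal.zero_mem _
      smul_mem' := by
        intro c b hb
        show (c • b) * G ∈ Ideal.span (Set.range Gj)
        rw [smul_eq_mul, mul_assoc]
        exact Ideal.mul_mem_left _ _ hb }
  have hB : ∃ B ∈ I', eval f B ≠ 0 := by
    refine ⟨∏ j, (W j * qj j), ?_, ?_⟩
    · have h3 : (∏ j, (W j * qj j)) * G =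
          q * ∑ j, (∏ i ∈ Finset.univ.erase j, (W i * qj i)) * U j * Gj j := by
        apply inc_inj (k := k) (N := N) (d := d)
        rw [map_mul, ← hx', hxs, map_mul, map_sum, Finset.sum_mul, Finset.mul_sum, Finset.mul_sum]
        refine Finset.sum_congr rfl fun j _ => ?_
        rw [map_mul, map_mul, ← hoj' j, ← hgj' j, ← Finset.mul_prod_erase _ _ (Finset.mem_univ j),
          map_mul, map_mul]
        ring
      show (∏ j, (W j * qj j)) * G ∈ Ideal.span (Set.range Gj)
      rw [h3]
      refine Ideal.mul_mem_left _ _ (Ideal.sum_mem _ fun j _ => Ideal.mul_mem_left _ _ ?_)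
      exact Ideal.subset_span ⟨j, rfl⟩
    · rw [map_prod]
      refine Finset.prod_ne_zero_iff.2 fun j _ => ?_
      rw [map_mul]
      exact mul_ne_zero (hW j) (hfqj j)
  have hstab : ∀ A : Matrix (Fin (N + 1)) (Fin (N + 1)) k, A.det ≠ 0 →
      ∀ B ∈ I', compT A B ∈ I' := by
    intro A hA B hB
    have h3 : B * G ∈ Ideal.span (Set.range Gj) := hB
    obtain ⟨a, ha⟩ := (Ideal.mem_span_range_iff_exists_fun).1 h3
    have h4 := congrArg (compT A) ha
    rw [map_sum, map_mul, compT_semi hG] at h4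
    have h5 : compT A B * G = C ((A.det ^ w)⁻¹) * ∑ j, compT A (a j * Gj j) := by
      rw [h4]
      have h6 : (C ((A.det ^ w)⁻¹) : MvPolynomial (Ix N d) k) * C (A.det ^ w) = 1 := by
        rw [← C_mul, inv_mul_cancel₀ (pow_ne_zero _ hA), C_1]
      linear_combination (-(compT A B * G)) * h6
    show compT A B * G ∈ Ideal.span (Set.range Gj)
    rw [h5]
    refine Ideal.mul_mem_left _ _ (Ideal.sum_mem _ fun j _ => ?_)
    rw [map_mul, compT_semi (hGj j), ← mul_assoc]
    exact Ideal.mul_mem_left _ _ (Ideal.subset_span ⟨j, rfl⟩)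
  obtain ⟨w', R, hR, hfR, hRG⟩ := h1 hd f hf I' hstab hB
  obtain ⟨a, ha⟩ := (Ideal.mem_span_range_iff_exists_fun).1 (show R * G ∈ Ideal.span (Set.range Gj) from hRG)
  set u := w' + w with hu
  have hRGs : IsSemi u (R * G) := hR.mul hG
  have key : R * G = ∑ j, bco u (wj j) (a j) * Gj j := by
    rw [← sharp_semi hRGs, ← ha, sharp_sum]
    exact Finset.sum_congr rfl fun j _ => sharp_mul _ (hGj j)
  have hbs : ∀ j, IsSemi u (bco u (wj j) (a j) * qj j) := by
    intro j
    unfold bco
    split_ifs with h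
    · have := (isSemi_sharp (u - wj j) (a j)).mul (hqj j)
      rwa [Nat.sub_add_cancel h] at this
    · rw [zero_mul]
      exact IsSemi.zero
  have hRq : IsSemi u (R * q) := hR.mul hq
  have hfRq : eval f (R * q) ≠ 0 := by
    rw [map_mul]
    exact mul_ne_zero hfR hfq
  have hRq0 := inc_ne (ne_of_eval hfRq)
  have hNd : 0 < N + d := by omega
  let r : ι → locRing f := fun j => ⟨inc k N d (bco u (wj j) (a j) * qj j) * (inc k N d (R * q))⁻¹,
    bco u (wj j) (a j) * qj j, R * q, hfRq, invQuot_of_semi hNd (hbs j) hRq, by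
      change inc k N d (bco u (wj j) (a j) * qj j) * (inc k N d (R * q))⁻¹ * inc k N d (R * q) =
        inc k N d (bco u (wj j) (a j) * qj j)
      rw [mul_assoc, inv_mul_cancel₀ hRq0, mul_one]⟩
  have hfin : x = ∑ j, r j * g j := by
    apply Subtype.ext
    have h4 : ((∑ j, r j * g j : locRing f) : RF k N d) = ∑ j, (r j).1 * (g j).1 := by
      rw [AddSubmonoidClass.coe_finsetSum]
      rfl
    rw [h4]
    apply mul_right_cancel₀ hRq0
    rw [Finset.sum_mul]
    have h5 : ∀ j, (r j).1 * (g j).1 * inc k N d (R * q) = inc k N d (bco u (wj j) (a j) * Gj j) := by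
      intro j
      change inc k N d (bco u (wj j) (a j) * qj j) * (inc k N d (R * q))⁻¹ * (g j).1 *
        inc k N d (R * q) = _
      rw [map_mul, map_mul (inc k N d) (bco u (wj j) (a j)) (Gj j), ← hgj' j]
      field_simp
    rw [Finset.sum_congr rfl fun j _ => h5 j, ← map_sum, ← key, map_mul, map_mul, ← hx']
    ring
  rw [hfin]
  exact Ideal.sum_mem _ fun j _ => Ideal.mul_mem_left _ _ (hg j)

end Pool.Agent.Q65.SM
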