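import Mathlib

/-! # Counting monomials -/

set_option autoImplicit false

namespace Pool.Agent.Q65.SM

open Finset

variable {k : Type} [Field k] {n : ℕ}

/-- the value of an unordered pair -/
def vl (l : Fin n → k) : Sym2 (Fin n) → k := Sym2.lift ⟨fun a b => l a * l b, fun _ _ => mul_comm _ _⟩

@[simp] lemma vl_mk (l : Fin n → k) (a b : Fin n) : vl l s(a, b) = l a * l b := rfl

/-- the monomial of an unordered pair -/
noncomputable def mon : Sym2 (Fin n) → (Fin n →₀ ℕ) :=
  Sym2.lift ⟨fun a b => Finsupp.single a 1 + Finsupp.single b 1, fun _ _ => add_comm _ _⟩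

lemma mon_mk (a b : Fin n) : mon s(a, b) = Finsupp.single a 1 + Finsupp.single b 1 := rfl

lemma mon_inj : Function.Injective (mon (n := n)) := by
  intro z w
  induction z with | _ a b
  induction w with | _ c e
  intro h
  rw [mon_mk, mon_mk] at h
  have h1 : Multiset.toFinsupp ({a, b} : Multiset (Fin n)) = Multiset.toFinsupp {c, e} := by
    have e1 : ∀ x y : Fin n, Multiset.toFinsupp ({x, y} : Multiset (Fin n)) =
        Finsupp.single x 1 + Finsupp.single y 1 := by
      intro x y
      rw [show ({x, y} : Multiset (Fin n)) = {x} + {y} from rfl, map_add, Multiset.toFinsupp_singleton,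
        Multiset.toFinsupp_singleton]
    rw [e1, e1, h]
  have h2 := Multiset.toFinsupp.injective h1
  rw [Sym2.eq_iff]
  have h3 : a ::ₘ ({b} : Multiset (Fin n)) = c ::ₘ {e} := h2
  rw [Multiset.cons_eq_cons] at h3
  rcases h3 with ⟨h4, h5⟩ | ⟨_, cs, h4, h5⟩
  · exact Or.inl ⟨h4, Multiset.singleton_inj.1 h5⟩
  · have hb : c ∈ ({b} : Multiset (Fin n)) := by rw [h4]; exact Multiset.mem_cons_self _ _
    have he : a ∈ ({e} : Multiset (Fin n)) := by rw [h5]; exact Multiset.mem_cons_self _ _
    rw [Multiset.mem_singleton] at hb he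
    exact Or.inr ⟨he, hb.symm⟩

lemma ev_mon (l : Fin n → k) (z : Sym2 (Fin n)) (o : Fin n) (e : ℕ) :
    ∏ j, l j ^ (mon z + Finsupp.single o e) j = vl l z * l o ^ e := by
  have h1 : ∀ (a : Fin n) (m : ℕ), ∏ j, l j ^ (Finsupp.single a m) j = l a ^ m := by
    intro a m
    rw [Finset.prod_eq_single a]
    · simp
    · intro b _ hb
      rw [Finsupp.single_eq_of_ne hb]
      simp
    · intro h; exact absurd (mem_univ _) h
  induction z with | _ a b
  rw [mon_mk, vl_mk]
  simp only [Finsupp.add_apply, pow_add, Finset.prod_mul_distrib]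
  rw [h1, h1, h1]
  simp

lemma card_two [DecidableEq k] (l : Fin n → k) (h0 : ∀ i, l i ≠ 0) (hne : ∃ i j, l i ≠ l j) (μ : k) :
    n - 1 ≤ (univ.filter fun z => vl l z ≠ μ).card := by
  obtain ⟨a, b, hab⟩ := hne
  have hab' : a ≠ b := fun h => hab (by rw [h])
  have h1 : (univ.erase b : Finset (Fin n)).card = n - 1 := by
    rw [card_erase_of_mem (mem_univ _)]; simp
  rw [← h1]
  refine card_le_card_of_injOn (fun j => if vl l s(j, a) ≠ μ then s(j, a) else s(j, b)) ?_ ?_
  · intro j _
    simp only [coe_filter, mem_univ, true_and, Set.mem_ofPred_eq]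
    by_cases h : vl l s(j, a) ≠ μ
    · rw [if_pos h]; exact h
    · rw [if_neg h]
      push Not at h
      rw [vl_mk] at h ⊢
      intro h2
      rw [← h] at h2
      exact hab (mul_left_cancel₀ (h0 j) h2).symm
  · intro j hj j' hj' h
    simp only [coe_erase, coe_univ, Set.mem_sdiff, Set.mem_univ, Set.mem_singleton_iff, true_and] at hj hj'
    simp only at h
    split_ifs at h with h1 h2 h2
    · rw [Sym2.eq_iff] at h; rcases h with h | h
      · exact h.1
      · rw [h.1, h.2]
    · rw [Sym2.eq_iff] at h; rcases h with h | h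
      · exact absurd h.2 hab'
      · exact absurd h.1 hj
    · rw [Sym2.eq_iff] at h; rcases h with h | h
      · exact absurd h.2.symm hab'
      · exact absurd h.2.symm hj'
    · rw [Sym2.eq_iff] at h; rcases h with h | h
      · exact h.1
      · rw [h.1, h.2]

lemma card_three [DecidableEq k] (hn : 3 ≤ n) (l : Fin n → k) (h0 : ∀ i, l i ≠ 0) (hinj : Function.Injective l)
    (μ : k) : n ≤ (univ.filter fun z => vl l z ≠ μ).card := by
  have h1 : (univ.filter fun z => vl l z = μ).card ≤ n := by
    have h2 : (univ : Finset (Fin n)).card = n := by simp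
    conv_rhs => rw [← h2]
    refine card_le_card_of_injOn (fun z => (Quot.out z).1) (fun _ _ => mem_coe.2 (mem_univ _)) ?_
    intro z hz w hw h
    simp only [coe_filter, mem_univ, true_and, Set.mem_ofPred_eq] at hz hw
    simp only at h
    have e1 : z = s((Quot.out z).1, (Quot.out z).2) := (Quot.out_eq z).symm
    have e2 : w = s((Quot.out w).1, (Quot.out w).2) := (Quot.out_eq w).symm
    rw [e1, vl_mk] at hz
    rw [e2, vl_mk] at hw
    rw [e1, e2]
    rw [h] at hz ⊢
    have := mul_left_cancel₀ (h0 _) (hz.trans hw.symm)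
    rw [hinj this]
  have h3 : (univ.filter fun z => vl l z = μ).card + (univ.filter fun z => vl l z ≠ μ).card =
      (univ : Finset (Sym2 (Fin n))).card := card_filter_add_card_filter_not _
  rw [card_univ, Sym2.card, Fintype.card_fin] at h3
  have h4 : n + n ≤ (n + 1).choose 2 := by
    rw [Nat.choose_two_right, Nat.le_div_iff_mul_le (by norm_num), Nat.add_sub_cancel]
    nlinarith
  omega

/-- the exponents of degree `d` -/
abbrev Ex' (n d : ℕ) : Type := {α : Fin n →₀ ℕ // α ∈ Finset.finsuppAntidiag Finset.univ d}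

lemma mem_Ex' {d : ℕ} (α : Fin n →₀ ℕ) : α ∈ Finset.finsuppAntidiag Finset.univ d ↔ α.degree = d := by
  rw [Finset.mem_finsuppAntidiag, Finsupp.degree_eq_sum]
  simp

lemma fiber {d : ℕ} (hd : 2 ≤ d) [DecidableEq k] (l : Fin n → k) (o : Fin n) (h0 : ∀ i, l i ≠ 0) (K : ℕ)
    (hK : ∀ μ, K ≤ (univ.filter fun z => vl l z ≠ μ).card) (i : Fin n) :
    K ≤ ((univ.filter fun p : Fin n × Ex' n d => ∏ j, l j ^ p.2.1 j ≠ l p.1).filter fun p => p.1 = i).card := by
  refine (hK (l i / l o ^ (d - 2))).trans ?_
  have hmem : ∀ z : Sym2 (Fin n), mon z + Finsupp.single o (d - 2) ∈ Finset.finsuppAntidiag Finset.univ d := by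
    intro z
    rw [mem_Ex']
    induction z with | _ a b
    rw [mon_mk]
    simp only [map_add, Finsupp.degree_single]
    omega
  refine card_le_card_of_injOn (fun z => (i, ⟨mon z + Finsupp.single o (d - 2), hmem z⟩)) ?_ ?_
  · intro z hz
    simp only [coe_filter, mem_univ, true_and, Set.mem_ofPred_eq, mem_filter] at hz ⊢
    refine ⟨?_, trivial⟩
    rw [ev_mon]
    intro h
    apply hz
    rw [eq_div_iff (pow_ne_zero _ (h0 o)), h]
  · intro z _ w _ h
    simp only [Prod.mk.injEq, Subtype.mk.injEq, true_and] at h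
    exact mon_inj (add_right_cancel h)

theorem q' {d : ℕ} (hn : 3 ≤ n) (hd : 2 ≤ d) [DecidableEq k] (l : Fin n → k) (h0 : ∀ i, l i ≠ 0)
    (hne : ∃ i j, l i ≠ l j) :
    (univ.filter fun p : Fin n × Fin n => l p.1 ≠ l p.2).card + 2 ≤
      (univ.filter fun p : Fin n × Ex' n d => ∏ j, l j ^ p.2.1 j ≠ l p.1).card := by
  have hsum : ∀ K : ℕ, (∀ μ, K ≤ (univ.filter fun z => vl l z ≠ μ).card) →
      n * K ≤ (univ.filter fun p : Fin n × Ex' n d => ∏ j, l j ^ p.2.1 j ≠ l p.1).card := by
    intro K hK
    rw [card_eq_sum_card_fiberwise (f := Prod.fst) (t := univ) (fun _ _ => mem_coe.2 (mem_univ _))]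
    have := card_nsmul_le_sum (univ : Finset (Fin n)) (fun i => ((univ.filter fun p : Fin n × Ex' n d =>
      ∏ j, l j ^ p.2.1 j ≠ l p.1).filter fun p => p.1 = i).card) K (fun i _ => fiber hd l ⟨0, by omega⟩ h0 K hK i)
    simpa using this
  have hoff : (univ.filter fun p : Fin n × Fin n => l p.1 ≠ l p.2) ⊆ (univ : Finset (Fin n)).offDiag := by
    intro p hp
    rw [mem_filter] at hp
    rw [mem_offDiag]
    exact ⟨mem_univ _, mem_univ _, fun h => hp.2 (by rw [h])⟩
  have hcard : (univ : Finset (Fin n)).offDiag.card = n * n - n := by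
    rw [offDiag_card]; simp
  by_cases hinj : Function.Injective l
  · have h1 := hsum n (card_three hn l h0 hinj)
    have h2 := card_le_card hoff
    rw [hcard] at h2
    have : n ≤ n * n := by nlinarith
    omega
  · have h1 := hsum (n - 1) (card_two l h0 hne)
    unfold Function.Injective at hinj
    push Not at hinj
    obtain ⟨i0, j0, hl, hij⟩ := hinj
    have hoff2 : (univ.filter fun p : Fin n × Fin n => l p.1 ≠ l p.2) ⊆
        (univ : Finset (Fin n)).offDiag \ {(i0, j0), (j0, i0)} := by
      intro p hp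
      rw [mem_sdiff]
      refine ⟨hoff hp, ?_⟩
      rw [mem_filter] at hp
      rw [mem_insert, mem_singleton]
      rintro (h | h)
      · rw [h] at hp; exact hp.2 hl
      · rw [h] at hp; exact hp.2 hl.symm
    have h2 := card_le_card hoff2
    rw [card_sdiff_of_subset, hcard, card_pair] at h2
    · have e1 : n * (n - 1) = n * n - n := by rw [Nat.mul_sub, mul_one]
      have : 3 * n ≤ n * n := by nlinarith
      omega
    · intro h
      simp only [Prod.mk.injEq] at h
      exact hij h.1
    · intro p hp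
      rw [mem_insert, mem_singleton] at hp
      rw [mem_offDiag]
      rcases hp with h | h
      · rw [h]; exact ⟨mem_univ _, mem_univ _, hij⟩
      · rw [h]; exact ⟨mem_univ _, mem_univ _, hij.symm⟩

end Pool.Agent.Q65.SM
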