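import Pool.Agent.Q55.SM.Stm
import Pool.Agent.Q65.SM.Det
import Pool.Agent.Q65.SM.Qc

/-! # The statements `S_Det` and `S_Q` of project SM -/

set_option autoImplicit false

namespace Pool.Agent.Q65.SM

open Pool.Agent.Q55.SM Pool.Agent.Helper819.Dyn

theorem t_Det : S_Det := fun ι hι hres _ D h hh g => det' ι hι hres D h hh g

theorem t_Q : S_Q := by
  intro k _ N d hN hd l h0 hne
  classical
  have h := q' (d := d) (show 3 ≤ N + 1 by omega) hd l h0 hne
  have e1 : off l = Finset.univ.filter fun p : Fin (N + 1) × Fin (N + 1) => l p.1 ≠ l p.2 := by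
    ext p
    rw [mem_off]
    simp
  have e2 : bad (d := d) l =
      Finset.univ.filter fun p : Fin (N + 1) × Ex' (N + 1) d => ∏ j, l j ^ p.2.1 j ≠ l p.1 := by
    ext p
    rw [mem_bad]
    simp
  rw [e1, e2]
  exact h

end Pool.Agent.Q65.SM
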