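import Pool.Agent.Q148.SM.Stm

set_option autoImplicit false

/-!
# Job ZERO of project SM: the case `a = 0`
-/

namespace Pool.Agent.Q65.SM

open Finset Polynomial Pool.Agent.Q148.SM

/-- `∑ x⁻² ≥ card - 2 log ∏ x` -/
theorem ms_log (s : Multiset ℂ) (h : (0 : ℂ) ∉ s) :
    0 < (s.map fun w : ℂ => ‖w‖).prod ∧
    (s.card : ℝ) - 2 * Real.log ((s.map fun w : ℂ => ‖w‖).prod) ≤
      (s.map fun w : ℂ => (‖w - (0 : ℂ)‖ ^ 2)⁻¹).sum := by
  induction s using Multiset.induction with
  | empty => simp
  | cons a s ih =>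
    have ha : a ≠ 0 := fun h0 => h (by rw [h0]; exact Multiset.mem_cons_self _ _)
    obtain ⟨h1, h2⟩ := ih fun h0 => h (Multiset.mem_cons_of_mem h0)
    have hn : 0 < ‖a‖ := norm_pos_iff.2 ha
    simp only [Multiset.map_cons, Multiset.prod_cons, Multiset.sum_cons, Multiset.card_cons, sub_zero] at h2 ⊢
    refine ⟨mul_pos hn h1, ?_⟩
    rw [Real.log_mul hn.ne' h1.ne']
    have h3 : 1 - 2 * Real.log ‖a‖ ≤ (‖a‖ ^ 2)⁻¹ := by
      have h4 := Real.log_le_sub_one_of_pos (x := (‖a‖ ^ 2)⁻¹) (by positivity)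
      rw [Real.log_inv, Real.log_pow] at h4
      push_cast at h4
      linarith
    push_cast
    linarith

theorem ms_norm (s : Multiset ℂ) : ‖(s.map fun w : ℂ => -w).prod‖ = (s.map fun w : ℂ => ‖w‖).prod := by
  induction s using Multiset.induction with
  | empty => simp
  | cons a s ih =>
    rw [Multiset.map_cons, Multiset.prod_cons, Multiset.map_cons, Multiset.prod_cons, norm_mul, norm_neg, ih]

theorem t_ZERO : S_ZERO := by
  intro N hN z hz P hP h0
  have hPX : P = X * ∏ j, (X - C (z j)) := by rw [hP, C_0, sub_zero]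
  have hmon : (∏ j, (X - C (z j)) : Polynomial ℂ).Monic := monic_prod_of_monic _ _ fun j _ => monic_X_sub_C _
  have hRdeg : (∏ j, (X - C (z j)) : Polynomial ℂ).natDegree = N := by
    rw [natDegree_prod_of_monic _ _ fun j _ => monic_X_sub_C _]
    simp
  have hPmon : P.Monic := by rw [hPX]; exact monic_X.mul hmon
  have hPdeg : P.natDegree = N + 1 := by
    rw [hPX, monic_X.natDegree_mul hmon, natDegree_X, hRdeg, add_comm]
  have hdd : P.derivative.natDegree = N := by
    rw [natDegree_derivative, hPdeg]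
    rfl
  have hlc : P.derivative.leadingCoeff = (N : ℂ) + 1 := by
    rw [leadingCoeff, hdd, coeff_derivative, ← hPdeg, hPmon.coeff_natDegree, one_mul]
  have hsp := IsAlgClosed.splits P.derivative
  have hcard : P.derivative.roots.card = N := by
    rw [← hdd]
    exact hsp.natDegree_eq_card_roots.symm
  have hev : P.derivative.eval 0 = ∏ j, (-z j) := by
    rw [hPX, derivative_mul, derivative_X, one_mul, eval_add, eval_mul, eval_X, zero_mul, add_zero, eval_prod]
    simp
  have hle : ‖P.derivative.eval 0‖ ≤ 1 := by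
    rw [hev, norm_prod]
    exact Finset.prod_le_one (fun j _ => norm_nonneg _) fun j _ => by rw [norm_neg]; exact hz j
  have hev2 : ‖P.derivative.eval 0‖ = ((N : ℝ) + 1) * (P.derivative.roots.map fun w : ℂ => ‖w‖).prod := by
    have e1 := hsp.eq_prod_roots
    have e2 : P.derivative.eval 0 = ((N : ℂ) + 1) * (P.derivative.roots.map fun w : ℂ => -w).prod := by
      conv_lhs => rw [e1]
      rw [eval_mul, eval_C, hlc, eval_multiset_prod, Multiset.map_map]
      congr 2
      refine Multiset.map_congr rfl fun w _ => ?_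
      simp
    rw [e2, norm_mul]
    congr 1
    · rw [show ((N : ℂ) + 1) = ((N + 1 : ℕ) : ℂ) by push_cast; ring, Complex.norm_natCast]
      push_cast
      ring
    · exact ms_norm _
  obtain ⟨h1, h2⟩ := ms_log P.derivative.roots h0
  rw [hcard] at h2
  refine le_trans ?_ h2
  have h3 : (P.derivative.roots.map fun w : ℂ => ‖w‖).prod ≤ 1 := by
    rw [hev2] at hle
    have : (0 : ℝ) ≤ N := Nat.cast_nonneg N
    nlinarith
  have h4 := Real.log_nonpos h1.le h3
  linarith

end Pool.Agent.Q65.SM
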